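import Mathlib

/-!
Data of a doubly periodic straight-line drawing with 10 vertices and 63 edges per period in which
every edge is crossed at most five times, and the finite check.
-/

set_option autoImplicit false

namespace Pool.Agent.Helper20.K5

/-- the base segments, packed (12 bits per coordinate, 48 bits per segment). -/
def big : ℕ := 1844999873914331693056907931939434440190519166164317357377268027881342688607826760604618753545408446232405089422494117134689059550243618326572747888557345638829261485185514135776353811427615999036227251608190581843395421542975061526246538519125923232286505037124157638977181782312583235243691870054435631981485797670562995263453183249054869722497514817743025584695905176346953668443262568800209663652785027904394220372270979397987365152754850245792672319398207041106256610861185031991231596881562616165875372955486903520718525621372282649962708891993291868624063203666822559947873138079692072030528351833494401331913084209762433813761913178484570700048602041987665781360373465119259560849322671273850353870369359274709418995645613170199464753784789949511078669624937958430202943432933822821021777120606518875702004884683996205633234418309767989684600041937016321671610464773004706425672316782654827793995104748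

/-- coordinate `q` (0,1: start point, 2,3: end point) of the base segment `k`, shifted by `269`. -/
def co (k q : ℕ) : ℕ := (big >>> (48 * k + 12 * q)) % 4096

def vbig : ℕ := 41846371262384437985503397673525234127476168714041119223138653691228383

/-- coordinates of the ten vertices (unshifted). -/
def vx (i : ℕ) : ℕ := (vbig >>> (24 * i)) % 4096
def vy (i : ℕ) : ℕ := (vbig >>> (24 * i + 12)) % 4096

def eiL : List ℕ := [0, 1, 0, 0, 0, 0, 4, 0, 0, 0, 0, 0, 0, 0, 1, 1, 1, 1, 1, 1, 1, 1, 1, 2, 2, 2, 2,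
  2, 2, 2, 2, 2, 2, 3, 4, 3, 3, 3, 3, 3, 3, 8, 3, 4, 4, 4, 4, 4, 4, 5, 5, 7, 5, 9, 6, 8, 6, 9, 7, 8,
  7, 7, 8]
def ejL : List ℕ := [1, 0, 2, 3, 3, 4, 0, 5, 5, 6, 6, 7, 8, 9, 3, 4, 5, 6, 7, 7, 8, 9, 9, 3, 3, 4, 5,
  6, 7, 7, 8, 9, 9, 4, 3, 5, 5, 6, 6, 7, 8, 3, 9, 5, 6, 7, 7, 8, 9, 6, 7, 5, 9, 5, 7, 6, 9, 6, 8, 7,
  9, 9, 9]
/-- the first lattice coordinate of the jump, plus one -/
def eaL : List ℕ := [1, 0, 1, 1, 2, 0, 1, 1, 2, 1, 2, 1, 0, 2, 1, 0, 1, 1, 0, 1, 0, 1, 2, 1, 2, 1, 1,
  1, 1, 2, 1, 1, 2, 0, 1, 0, 1, 0, 1, 1, 0, 1, 1, 2, 1, 1, 2, 1, 2, 1, 0, 1, 1, 0, 1, 1, 1, 0, 0, 1,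
  1, 2, 2]
def ebL : List ℕ := [0, 1, 0, 0, 0, 0, 1, 1, 0, 1, 0, 0, 0, 0, 0, 0, 1, 1, 1, 0, 0, 1, 0, 1, 0, 0, 1,
  1, 1, 0, 0, 1, 0, 0, 1, 1, 0, 1, 0, 0, 0, 1, 0, 1, 1, 1, 0, 0, 1, 0, 0, 1, 0, 1, 0, 1, 0, 1, 0, 1,
  0, 0, 0]

def ei (k : ℕ) : ℕ := eiL.getD k 0
def ej (k : ℕ) : ℕ := ejL.getD k 0
def ea (k : ℕ) : ℕ := eaL.getD k 0
def eb (k : ℕ) : ℕ := ebL.getD k 0

theorem co_eq : ∀ k < 63, co k 0 = vx (ei k) + 269 ∧ co k 1 = vy (ei k) + 269 ∧
    co k 2 = vx (ej k) + 269 * ea k ∧ co k 3 = vy (ej k) + 269 * (eb k + 1) ∧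
    ei k < 10 ∧ ej k < 10 ∧ ea k ≤ 2 ∧ eb k ≤ 1 := by
  decide +kernel

theorem v_lt : ∀ i < 10, vx i < 269 ∧ vy i < 269 := by
  decide +kernel

theorem v_inj : ∀ i < 10, ∀ j < 10, vx i = vx j → vy i = vy j → i = j := by
  decide +kernel

/-- the 63 edges are pairwise distinct, also with the orientation reversed, and not loops. -/
theorem e_inj : ∀ k < 63, ∀ l < 63, (ei k = ei l ∧ ej k = ej l ∧ ea k = ea l ∧ eb k = eb l) →
    k = l := by
  decide +kernel

theorem e_rev : ∀ k < 63, ∀ l < 63, ¬ (ei k = ej l ∧ ej k = ei l ∧ ea k + ea l = 2 ∧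
    eb k + eb l = 0) := by
  decide +kernel

theorem e_loop : ∀ k < 63, ei k ≠ ej k := by
  decide +kernel

/-- positive part of twice the signed area of the triangle. -/
def oL (px py qx qy rx ry : ℕ) : ℕ := px * qy + qx * ry + rx * py
/-- negative part. -/
def oR (px py qx qy rx ry : ℕ) : ℕ := px * ry + qx * py + rx * qy

/-- both values are on one side, not both zero. -/
def side (a a' b b' : ℕ) : Bool :=
  (Nat.ble a' a && (Nat.ble b' b && !(Nat.beq a a' && Nat.beq b b'))) ||
  (Nat.ble a a' && (Nat.ble b b' && !(Nat.beq a a' && Nat.beq b b')))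

def isNon (px py qx qy rx ry sx sy : ℕ) : Bool :=
  side (oL px py qx qy rx ry) (oR px py qx qy rx ry) (oL px py qx qy sx sy) (oR px py qx qy sx sy)
  || side (oL rx ry sx sy px py) (oR rx ry sx sy px py) (oL rx ry sx sy qx qy)
    (oR rx ry sx sy qx qy)

/-- the end points of the second segment are strictly separated by the line of the first. -/
def isSep (px py qx qy rx ry sx sy : ℕ) : Bool :=
  (Nat.blt (oR px py qx qy rx ry) (oL px py qx qy rx ry) &&
    Nat.blt (oL px py qx qy sx sy) (oR px py qx qy sx sy)) ||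
  (Nat.blt (oL px py qx qy rx ry) (oR px py qx qy rx ry) &&
    Nat.blt (oR px py qx qy sx sy) (oL px py qx qy sx sy))

/-- code `t = 25 f + 5 sx + sy`: segment `f` shifted by `(sx, sy)` periods. -/
def non (c t : ℕ) : Bool :=
  isNon (co c 0 + 538) (co c 1 + 538) (co c 2 + 538) (co c 3 + 538)
    (co (t / 25) 0 + 269 * (t / 5 % 5)) (co (t / 25) 1 + 269 * (t % 5))
    (co (t / 25) 2 + 269 * (t / 5 % 5)) (co (t / 25) 3 + 269 * (t % 5))

def sep (c t : ℕ) : Bool :=
  isSep (co c 0 + 538) (co c 1 + 538) (co c 2 + 538) (co c 3 + 538)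
    (co (t / 25) 0 + 269 * (t / 5 % 5)) (co (t / 25) 1 + 269 * (t % 5))
    (co (t / 25) 2 + 269 * (t / 5 % 5)) (co (t / 25) 3 + 269 * (t % 5))

/-- the loop: at most `B` codes below `T` are not `non`, and those are separated or equal to
`self`. -/
def loop (c : ℕ) : ℕ → ℕ → Bool
  | 0, _ => true
  | t + 1, B =>
    bif non c t then loop c t B else
      bif (sep c t || Nat.beq t (25 * c + 12)) then
        (match B with
          | 0 => false
          | B + 1 => loop c t B)
      else false

/-- vertex `v` shifted by `(sx, sy)` is not on the open segment `c`. -/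
def off (c v sx sy : ℕ) : Bool :=
  (!(Nat.beq (oL (co c 0 + 538) (co c 1 + 538) (co c 2 + 538) (co c 3 + 538)
      (vx v + 269 * (1 + sx)) (vy v + 269 * (1 + sy)))
    (oR (co c 0 + 538) (co c 1 + 538) (co c 2 + 538) (co c 3 + 538)
      (vx v + 269 * (1 + sx)) (vy v + 269 * (1 + sy))))) ||
  ((Nat.ble (vx v + 269 * (1 + sx)) (co c 0 + 538) &&
    Nat.ble (vx v + 269 * (1 + sx)) (co c 2 + 538)) ||
   (Nat.ble (co c 0 + 538) (vx v + 269 * (1 + sx)) &&
    Nat.ble (co c 2 + 538) (vx v + 269 * (1 + sx))))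

theorem off_all : ∀ c < 63, ∀ v < 10, ∀ sx < 5, ∀ sy < 5, off c v sx sy = true := by
  decide +kernel

theorem co_ne : ∀ c < 63, co c 0 ≠ co c 2 := by
  decide +kernel

theorem loop_all : ∀ c < 63, loop c 1575 6 = true := by
  decide +kernel

end Pool.Agent.Helper20.K5
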