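import Mathlib

/-!
Drawings of graphs in the plane and `k`-planar graphs.
-/

set_option autoImplicit false

namespace Pool.Agent.Helper20.K5

open Set

/-- A drawing of the graph `G` in the plane `ℂ`: the vertices are distinct points, every edge is a
simple arc (a continuous injective image of `[0, 1]`) joining the points of its two end vertices,
and no point of an arc other than its end points is the point of a vertex. -/
structure Drawing {V : Type} (G : SimpleGraph V) where
  pt : V → ℂ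
  pt_inj : Function.Injective pt
  arc : G.edgeSet → ℝ → ℂ
  arc_cont : ∀ e, ContinuousOn (arc e) (Icc 0 1)
  arc_inj : ∀ e, InjOn (arc e) (Icc 0 1)
  arc_ends : ∀ e : G.edgeSet, s(arc e 0, arc e 1) = (e : Sym2 V).map pt
  arc_avoid : ∀ e v, ∀ t ∈ Ioo (0 : ℝ) 1, arc e t ≠ pt v

/-- The interior of the arc of the edge `e`. -/
def Drawing.inner {V : Type} {G : SimpleGraph V} (D : Drawing G) (e : G.edgeSet) : Set ℂ :=
  D.arc e '' Ioo 0 1

/-- The crossings of the edge `e`: the pairs `(f, z)` of another edge `f` and a common interior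
point `z` of the arcs of `e` and `f`. -/
def Drawing.crossings {V : Type} {G : SimpleGraph V} (D : Drawing G) (e : G.edgeSet) :
    Set (G.edgeSet × ℂ) :=
  {p | p.1 ≠ e ∧ p.2 ∈ D.inner e ∧ p.2 ∈ D.inner p.1}

/-- `G` is `k`-planar: it has a drawing in which every edge has at most `k` crossings. -/
def IsKPlanar (k : ℕ) {V : Type} (G : SimpleGraph V) : Prop :=
  ∃ D : Drawing G, ∀ e, (D.crossings e).encard ≤ k

/-- The maximum number of edges of a `k`-planar graph with `n` vertices. -/
noncomputable def maxEdges (k n : ℕ) : ℕ :=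
  sSup {m | ∃ G : SimpleGraph (Fin n), IsKPlanar k G ∧ G.edgeSet.ncard = m}

/-- construction of a drawing from an indexed family of arcs. -/
theorem kplanar_of {V I : Type} (k : ℕ) (ends : I → Sym2 V) (_hinj : Function.Injective ends)
    (pt : V → ℂ) (hpt : Function.Injective pt) (γ : I → ℝ → ℂ)
    (hc : ∀ i, ContinuousOn (γ i) (Icc 0 1)) (hi : ∀ i, InjOn (γ i) (Icc 0 1))
    (he : ∀ i, s(γ i 0, γ i 1) = (ends i).map pt)
    (ha : ∀ i v, ∀ t ∈ Ioo (0 : ℝ) 1, γ i t ≠ pt v)
    (hk : ∀ i, {p : I × ℂ | p.1 ≠ i ∧ p.2 ∈ γ i '' Ioo 0 1 ∧ p.2 ∈ γ p.1 '' Ioo 0 1}.encard ≤ k) :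
    IsKPlanar k (SimpleGraph.fromEdgeSet (range ends)) := by
  have hex : ∀ e : (SimpleGraph.fromEdgeSet (range ends)).edgeSet, ∃ i, ends i = (e : Sym2 V) := by
    rintro ⟨e, he⟩
    rw [SimpleGraph.edgeSet_fromEdgeSet] at he
    exact he.1
  choose idx hidx using hex
  have hidx_inj : Function.Injective idx := by
    intro e f h
    apply Subtype.ext
    rw [← hidx e, ← hidx f, h]
  refine ⟨⟨pt, hpt, fun e => γ (idx e), fun e => hc _, fun e => hi _, fun e => ?_,
    fun e => ha _⟩, fun e => ?_⟩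
  · rw [he, hidx]
  · refine le_trans ?_ (hk (idx e))
    apply encard_le_encard_of_injOn (f := fun p => (idx p.1, p.2))
    · rintro ⟨f, z⟩ ⟨h1, h2, h3⟩
      exact ⟨fun h => h1 (hidx_inj h), h2, h3⟩
    · rintro ⟨f, z⟩ - ⟨f', z'⟩ - h
      simp only [Prod.mk.injEq] at h
      rw [hidx_inj h.1, h.2]

theorem le_maxEdges {k n : ℕ} {G : SimpleGraph (Fin n)} (hG : IsKPlanar k G) :
    G.edgeSet.ncard ≤ maxEdges k n := by
  apply le_csSup
  · refine ⟨Nat.card (Sym2 (Fin n)), ?_⟩
    rintro m ⟨G, -, rfl⟩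
    rw [← Set.ncard_univ]
    exact Set.ncard_le_ncard (subset_univ _)
  · exact ⟨G, hG, rfl⟩

end Pool.Agent.Helper20.K5
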