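import Pool.Agent.Helper20.K5.Geom
import Pool.Agent.Helper20.K5.Defs

set_option autoImplicit false

namespace Pool.Agent.Helper20.K5

open Set

/-- the covering of the punctured plane by the strip. -/
noncomputable def ex (x y : ℝ) : ℂ :=
  Complex.exp (2 * Real.pi * Complex.I * (((x : ℂ) + y * Complex.I) / 1345))

theorem ex_eq_iff (x y x' y' : ℝ) : ex x y = ex x' y' ↔ ∃ k : ℤ, x = x' + 1345 * k ∧ y = y' := by
  unfold ex
  rw [Complex.exp_eq_exp_iff_exists_int]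
  have hpi : (2 * Real.pi * Complex.I : ℂ) ≠ 0 := Complex.two_pi_I_ne_zero
  constructor
  · rintro ⟨k, hk⟩
    refine ⟨k, ?_⟩
    have h : (2 * Real.pi * Complex.I : ℂ) * (((x : ℂ) + y * Complex.I) -
        (((x' : ℂ) + y' * Complex.I) + 1345 * k)) = 0 := by
      linear_combination 1345 * hk
    have h2 := sub_eq_zero.1 ((mul_eq_zero.1 h).resolve_left hpi)
    have hre := congrArg Complex.re h2
    have him := congrArg Complex.im h2
    simp at hre him
    exact ⟨hre, him⟩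
  · rintro ⟨k, h1, h2⟩
    refine ⟨k, ?_⟩
    rw [h1, h2]
    push_cast
    ring

theorem ex_shift (x y : ℝ) (k : ℤ) : ex (x + 1345 * k) y = ex x y :=
  (ex_eq_iff _ _ _ _).2 ⟨k, rfl, rfl⟩

theorem continuous_ex : Continuous (fun p : ℝ × ℝ => ex p.1 p.2) := by
  unfold ex; fun_prop

theorem VX_shift (i : ℕ) (x k : ℤ) : VX i (x + 5 * k) = VX i x + 1345 * k := by
  unfold VX; push_cast; ring

/-- position of the vertex number `v`. -/
noncomputable def pos (v : ℕ) : ℂ :=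
  ex (VX (v % 10) ((v / 10 % 5 : ℕ) : ℤ)) (VY (v % 10) ((v / 50 : ℕ) : ℤ))

theorem VX_inj {i j : ℕ} (hi : i < 10) (hj : j < 10) {x y : ℤ} (h : VX i x = VX j y) :
    vx i = vx j ∧ x = y := by
  unfold VX at h
  have h1 := (v_lt i hi).1
  have h2 := (v_lt j hj).1
  have h3 : (vx i : ℤ) + 269 * x = (vx j : ℤ) + 269 * y := by exact_mod_cast h
  omega

theorem VY_inj {i j : ℕ} (hi : i < 10) (hj : j < 10) {x y : ℤ} (h : VY i x = VY j y) :
    vy i = vy j ∧ x = y := by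
  unfold VY at h
  have h1 := (v_lt i hi).2
  have h2 := (v_lt j hj).2
  have h3 : (vy i : ℤ) + 269 * x = (vy j : ℤ) + 269 * y := by exact_mod_cast h
  omega

theorem pos_inj {v w : ℕ} (h : pos v = pos w) : v = w := by
  unfold pos at h
  rw [ex_eq_iff] at h
  obtain ⟨k, h1, h2⟩ := h
  rw [← VX_shift] at h1
  have hv : v % 10 < 10 := Nat.mod_lt _ (by norm_num)
  have hw : w % 10 < 10 := Nat.mod_lt _ (by norm_num)
  obtain ⟨a1, a2⟩ := VX_inj hv hw h1
  obtain ⟨b1, b2⟩ := VY_inj hv hw h2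
  have := v_inj _ hv _ hw a1 b1
  omega

def vidA (c x y : ℕ) : ℕ := 50 * y + 10 * x + ei c
def vidB (c x y : ℕ) : ℕ := 50 * (y + eb c) + 10 * ((x + ea c + 4) % 5) + ej c

theorem pos_vidA {c x y : ℕ} (hc : c < 63) (hx : x < 5) :
    pos (vidA c x y) = ex (SX c x 0) (SY c y 0) := by
  obtain ⟨-, -, -, -, hi, hj, ha, hb⟩ := co_eq c hc
  have e1 : vidA c x y % 10 = ei c := by unfold vidA; omega
  have e2 : vidA c x y / 10 % 5 = x := by unfold vidA; omega
  have e3 : vidA c x y / 50 = y := by unfold vidA; omega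
  unfold pos
  rw [e1, e2, e3, SX_zero, SY_zero]

theorem pos_vidB {c x y : ℕ} (hc : c < 63) (_hx : x < 5) :
    pos (vidB c x y) = ex (SX c x 1) (SY c y 1) := by
  obtain ⟨-, -, -, -, hi, hj, ha, hb⟩ := co_eq c hc
  have e1 : vidB c x y % 10 = ej c := by unfold vidB; omega
  have e2 : vidB c x y / 10 % 5 = (x + ea c + 4) % 5 := by unfold vidB; omega
  have e3 : vidB c x y / 50 = y + eb c := by unfold vidB; omega
  unfold pos
  rw [e1, e2, e3, SX_one, SY_one, ex_eq_iff]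
  refine ⟨1 - ((x + ea c + 4) / 5 : ℕ), ?_, by push_cast; rfl⟩
  rw [← VX_shift]
  congr 1
  have := Nat.div_add_mod (x + ea c + 4) 5
  omega

/-- the arc. -/
noncomputable def arcI (c x y : ℕ) (t : ℝ) : ℂ := ex (SX c x t) (SY c y t)

theorem arcI_continuous (c x y : ℕ) : Continuous (arcI c x y) := by
  unfold arcI
  have h1 : Continuous (fun t => SX c x t) := by unfold SX; fun_prop
  have h2 : Continuous (fun t => SY c y t) := by unfold SY; fun_prop
  exact continuous_ex.comp (h1.prodMk h2)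

theorem arcI_inj {c : ℕ} (hc : c < 63) (x y : ℕ) : InjOn (arcI c x y) (Icc 0 1) := by
  intro t ht t' ht' h
  unfold arcI at h
  rw [ex_eq_iff] at h
  obtain ⟨k, h1, -⟩ := h
  have b1 := SX_bound hc x ht.1 ht.2
  have b2 := SX_bound hc x ht'.1 ht'.2
  have k1 : (k : ℝ) < 1 := by nlinarith
  have k2 : (-1 : ℝ) < k := by nlinarith
  have k1' : k < 1 := by exact_mod_cast k1
  have k2' : -1 < k := by exact_mod_cast k2
  have hk : k = 0 := by omega
  subst hk
  obtain ⟨h0, -, h2, -, -⟩ := co_eq c hc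
  have hne := co_ne c hc
  unfold SX VX at h1
  push_cast at h1
  have h3 : (t - t') * ((co c 2 : ℝ) - co c 0) = 0 := by
    rw [h0, h2]; push_cast; linear_combination h1
  rcases mul_eq_zero.1 h3 with h4 | h4
  · linarith
  · exfalso
    apply hne
    have : (co c 0 : ℝ) = co c 2 := by linarith
    exact_mod_cast this

theorem arcI_avoid {c : ℕ} (hc : c < 63) (x y v : ℕ) {t : ℝ} (ht : t ∈ Ioo (0 : ℝ) 1) :
    arcI c x y t ≠ pos v := by
  intro h
  unfold arcI pos at h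
  rw [ex_eq_iff] at h
  obtain ⟨k, h1, h2⟩ := h
  rw [← VX_shift] at h1
  exact off_seg hc (Nat.mod_lt _ (by norm_num)) _ _ _ _ ht.1 ht.2 ⟨h1, h2⟩

/-- the index set of the edges of the graph on `n` vertices. -/
def Ix (n : ℕ) : Type :=
  {p : ℕ × ℕ × ℕ // p.1 < 63 ∧ p.2.1 < 5 ∧ vidA p.1 p.2.1 p.2.2 < n ∧ vidB p.1 p.2.1 p.2.2 < n}

def ends (n : ℕ) (i : Ix n) : Sym2 (Fin n) :=
  s(⟨vidA i.1.1 i.1.2.1 i.1.2.2, i.2.2.2.1⟩, ⟨vidB i.1.1 i.1.2.1 i.1.2.2, i.2.2.2.2⟩)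

theorem ends_inj (n : ℕ) : Function.Injective (ends n) := by
  rintro ⟨⟨c, x, y⟩, hc, hx, hA, hB⟩ ⟨⟨c', x', y'⟩, hc', hx', hA', hB'⟩ h
  simp only at hc hx hA hB hc' hx' hA' hB'
  obtain ⟨-, -, -, -, hi, hj, ha, hb⟩ := co_eq c hc
  obtain ⟨-, -, -, -, hi', hj', ha', hb'⟩ := co_eq c' hc'
  unfold ends at h
  simp only [Sym2.eq_iff, Fin.mk.injEq] at h
  have key : c = c' ∧ x = x' ∧ y = y' := by
    rcases h with ⟨h1, h2⟩ | ⟨h1, h2⟩
    · unfold vidA at h1
      unfold vidB at h2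
      have e1 : ei c = ei c' := by omega
      have e2 : x = x' := by omega
      have e3 : y = y' := by omega
      have e4 : ej c = ej c' := by omega
      have e5 : eb c = eb c' := by omega
      have e6 : ea c = ea c' := by omega
      exact ⟨e_inj c hc c' hc' ⟨e1, e4, e6, e5⟩, e2, e3⟩
    · exfalso
      unfold vidA vidB at h1
      unfold vidA vidB at h2
      refine e_rev c hc c' hc' ⟨?_, ?_, ?_, ?_⟩ <;> omega
  obtain ⟨rfl, rfl, rfl⟩ := key
  rfl

theorem ends_not_diag (n : ℕ) (i : Ix n) : ¬ (ends n i).IsDiag := by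
  obtain ⟨⟨c, x, y⟩, hc, hx, hA, hB⟩ := i
  simp only at hc hx hA hB
  obtain ⟨-, -, -, -, hi, hj, ha, hb⟩ := co_eq c hc
  have hl := e_loop c hc
  unfold ends
  simp only [Sym2.mk_isDiag_iff, Fin.mk.injEq]
  unfold vidA vidB
  omega

theorem cross_card {n : ℕ} (i : Ix n) :
    {p : Ix n × ℂ | p.1 ≠ i ∧ p.2 ∈ arcI i.1.1 i.1.2.1 i.1.2.2 '' Ioo 0 1 ∧
      p.2 ∈ arcI p.1.1.1 p.1.1.2.1 p.1.1.2.2 '' Ioo 0 1}.encard ≤ (5 : ℕ) := by
  obtain ⟨⟨c, x, y⟩, hc, hx, hA, hB⟩ := i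
  simp only at hc hx hA hB
  set A := {p : Ix n × ℂ | p.1 ≠ ⟨⟨c, x, y⟩, hc, hx, hA, hB⟩ ∧ p.2 ∈ arcI c x y '' Ioo 0 1 ∧
      p.2 ∈ arcI p.1.1.1 p.1.1.2.1 p.1.1.2.2 '' Ioo 0 1} with hAdef
  have hex : ∀ p : Ix n × ℂ, p ∈ A → ∃ (k : ℤ) (t s : ℝ), t ∈ Ioo (0 : ℝ) 1 ∧ s ∈ Ioo (0 : ℝ) 1 ∧
      p.2 = arcI c x y t ∧ SX c x t = SX p.1.1.1 ((p.1.1.2.1 : ℤ) + 5 * k) s ∧
      SY c y t = SY p.1.1.1 (p.1.1.2.2 : ℤ) s := by
    rintro ⟨⟨⟨d, x', y'⟩, hd, hx', hA', hB'⟩, z⟩ ⟨h1, ⟨t, ht, h2⟩, ⟨s, hs, h3⟩⟩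
    simp only at h2 h3 ⊢
    rw [← h3] at h2
    unfold arcI at h2
    rw [ex_eq_iff] at h2
    obtain ⟨k, h4, h5⟩ := h2
    refine ⟨k, t, s, ht, hs, ?_, ?_, h5⟩
    · rw [← h3]
      unfold arcI
      rw [h4, h5, ex_shift]
    · rw [h4, SX_shift]
      push_cast; ring
  choose! k t s ht hs h2 h3 h4 using hex
  have hbound := card_meet hc (x : ℤ) (y : ℤ)
  refine le_trans ?_ hbound
  apply encard_le_encard_of_injOn
    (f := fun p : Ix n × ℂ => (p.1.1.1, (p.1.1.2.1 : ℤ) + 5 * k p, (p.1.1.2.2 : ℤ)))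
  · intro p hp
    refine ⟨p.1.2.1, ?_, t p, s p, (ht p hp).1, (ht p hp).2, (hs p hp).1, (hs p hp).2, h3 p hp,
      h4 p hp⟩
    intro heq
    apply hp.1
    simp only [Prod.mk.injEq] at heq
    obtain ⟨e1, e2, e3⟩ := heq
    have hx' := p.1.2.2.1
    apply Subtype.ext
    apply Prod.ext
    · exact e1
    · apply Prod.ext
      · change p.1.1.2.1 = x
        omega
      · change p.1.1.2.2 = y
        omega
  · intro p hp q hq heq
    simp only [Prod.mk.injEq] at heq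
    obtain ⟨e1, e2, e3⟩ := heq
    have hx1 := p.1.2.2.1
    have hx2 := q.1.2.2.1
    have hd := p.1.2.1
    have e2' : p.1.1.2.1 = q.1.1.2.1 := by omega
    have e2'' : k p = k q := by omega
    have e3' : p.1.1.2.2 = q.1.1.2.2 := by omega
    have hpq : p.1 = q.1 := by
      apply Subtype.ext
      exact Prod.ext e1 (Prod.ext e2' e3')
    have hs' : s p = s q := by
      have a1 := h3 p hp
      have a2 := h4 p hp
      have b1 := h3 q hq
      have b2 := h4 q hq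
      rw [← e1, ← e2', ← e2''] at b1
      rw [← e1, ← e3'] at b2
      refine meet_unique hc hd ?_ (ht p hp).1 (ht p hp).2 (hs p hp).1 (hs p hp).2 a1 a2 b1 b2
      rintro ⟨c1, c2, c3⟩
      apply hp.1
      apply Subtype.ext
      apply Prod.ext
      · exact c1
      · apply Prod.ext
        · change p.1.1.2.1 = x
          omega
        · change p.1.1.2.2 = y
          omega
    refine Prod.ext hpq ?_
    rw [h2 p hp, h2 q hq]
    unfold arcI
    rw [h3 p hp, h4 p hp, h3 q hq, h4 q hq, hs', e1, e2', e2'', e3']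

/-- the graph. -/
def Gr (n : ℕ) : SimpleGraph (Fin n) := SimpleGraph.fromEdgeSet (range (ends n))

theorem Gr_kplanar (n : ℕ) : IsKPlanar 5 (Gr n) := by
  apply kplanar_of 5 (ends n) (ends_inj n) (fun v : Fin n => pos v)
    (fun v w h => Fin.ext (pos_inj h)) (fun i => arcI i.1.1 i.1.2.1 i.1.2.2)
  · intro i; exact (arcI_continuous _ _ _).continuousOn
  · intro i; exact arcI_inj i.2.1 _ _
  · intro i
    unfold ends arcI
    rw [Sym2.map_mk, pos_vidA i.2.1 i.2.2.1, pos_vidB i.2.1 i.2.2.1]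
  · intro i v t ht
    exact arcI_avoid i.2.1 _ _ _ ht
  · intro i; exact cross_card i

theorem Gr_edges (n : ℕ) : 315 * (n / 50 - 1) ≤ (Gr n).edgeSet.ncard := by
  set m := n / 50 - 1 with hm
  have hlt : ∀ p : Fin 63 × Fin 5 × Fin m,
      vidA p.1 p.2.1 p.2.2 < n ∧ vidB p.1 p.2.1 p.2.2 < n := by
    rintro ⟨c, x, y⟩
    obtain ⟨-, -, -, -, hi, hj, ha, hb⟩ := co_eq c c.2
    have hx := x.2
    have hy := y.2
    simp only
    unfold vidA vidB
    omega
  let φ : Fin 63 × Fin 5 × Fin m → Sym2 (Fin n) := fun p =>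
    ends n ⟨(p.1, p.2.1, p.2.2), p.1.2, p.2.1.2, (hlt p).1, (hlt p).2⟩
  have hφ : Function.Injective φ := by
    rintro ⟨c, x, y⟩ ⟨c', x', y'⟩ h
    have := ends_inj n h
    have h2 := congrArg Subtype.val this
    simp only [Prod.mk.injEq] at h2
    obtain ⟨e1, e2, e3⟩ := h2
    rw [Fin.ext e1, Fin.ext e2, Fin.ext e3]
  have hsub : φ '' univ ⊆ (Gr n).edgeSet := by
    rintro _ ⟨p, -, rfl⟩
    unfold Gr
    rw [SimpleGraph.edgeSet_fromEdgeSet]
    exact ⟨⟨_, rfl⟩, ends_not_diag n _⟩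
  calc 315 * m = (φ '' univ).ncard := by
        rw [Set.ncard_image_of_injective _ hφ, Set.ncard_univ, Nat.card_eq_fintype_card]
        simp only [Fintype.card_prod, Fintype.card_fin]
        ring
    _ ≤ _ := Set.ncard_le_ncard hsub (Set.toFinite _)

/-- the lower bound. -/
theorem lower (n : ℕ) : (63 / 10 : ℝ) * n - 624 ≤ maxEdges 5 n := by
  have h1 := Gr_edges n
  have h2 := le_maxEdges (Gr_kplanar n)
  have h3 : 315 * (n / 50 - 1) ≤ maxEdges 5 n := h1.trans h2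
  have h4 : 63 * n ≤ 10 * maxEdges 5 n + 6240 := by omega
  have h5 : (63 : ℝ) * n ≤ 10 * maxEdges 5 n + 6240 := by exact_mod_cast h4
  linarith

end Pool.Agent.Helper20.K5
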