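import Pool.Agent.Helper20.K5.Data

set_option autoImplicit false

namespace Pool.Agent.Helper20.K5

open Finset

/-! ### the finite check -/

theorem loop_spec (c : ℕ) : ∀ T B, loop c T B = true →
    ((range T).filter (fun t => non c t = false)).card ≤ B ∧
    ∀ t < T, non c t = false → (sep c t = true ∨ t = 25 * c + 12) := by
  intro T
  induction T with
  | zero => intro B _; simp
  | succ T ih =>
    intro B h
    rw [loop.eq_def] at h
    simp only at h
    rcases hn : non c T with _ | _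
    · rw [hn] at h
      simp only [cond_false] at h
      rcases hs : (sep c T || Nat.beq T (25 * c + 12)) with _ | _
      · rw [hs] at h; simp at h
      · rw [hs] at h
        simp only [cond_true] at h
        rcases B with _ | B
        · simp at h
        · obtain ⟨h1, h2⟩ := ih B h
          constructor
          · rw [range_add_one, filter_insert, if_pos hn, card_insert_of_notMem (by simp)]
            omega
          · intro t ht hnt
            rcases Nat.lt_succ_iff_lt_or_eq.1 ht with h3 | h3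
            · exact h2 t h3 hnt
            · subst h3
              rw [Bool.or_eq_true] at hs
              rcases hs with hs | hs
              · exact Or.inl hs
              · exact Or.inr (Nat.eq_of_beq_eq_true hs)
    · rw [hn] at h
      simp only [cond_true] at h
      obtain ⟨h1, h2⟩ := ih B h
      constructor
      · rw [range_add_one, filter_insert, if_neg (by rw [hn]; simp)]
        exact h1
      · intro t ht hnt
        rcases Nat.lt_succ_iff_lt_or_eq.1 ht with h3 | h3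
        · exact h2 t h3 hnt
        · subst h3; rw [hn] at hnt; simp at hnt

/-! ### orientation -/

/-- twice the signed area. -/
def orR (px py qx qy wx wy : ℝ) : ℝ := (qx - px) * (wy - py) - (qy - py) * (wx - px)

theorem orR_eq (px py qx qy rx ry : ℕ) :
    orR px py qx qy rx ry = (oL px py qx qy rx ry : ℝ) - (oR px py qx qy rx ry : ℝ) := by
  unfold orR oL oR; push_cast; ring

theorem orR_line (px py qx qy t : ℝ) :
    orR px py qx qy (px + t * (qx - px)) (py + t * (qy - py)) = 0 := by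
  unfold orR; ring

theorem orR_mix (px py qx qy rx ry sx sy s : ℝ) :
    orR px py qx qy (rx + s * (sx - rx)) (ry + s * (sy - ry)) =
      (1 - s) * orR px py qx qy rx ry + s * orR px py qx qy sx sy := by
  unfold orR; ring

theorem side_spec {a a' b b' : ℕ} (h : side a a' b b' = true) {s : ℝ} (h0 : 0 < s) (h1 : s < 1) :
    (1 - s) * ((a : ℝ) - a') + s * ((b : ℝ) - b') ≠ 0 := by
  unfold side at h
  simp only [Bool.or_eq_true, Bool.and_eq_true, Bool.not_eq_true', Nat.ble_eq] at h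
  have hne : ∀ {a a' b b' : ℕ}, (Nat.beq a a' && Nat.beq b b') = false → ¬ (a = a' ∧ b = b') := by
    rintro a a' b b' h ⟨rfl, rfl⟩
    simp at h
  have h2 : 0 < 1 - s := by linarith
  rcases h with ⟨h3, h4, h5⟩ | ⟨h3, h4, h5⟩
  · have h6 := hne h5
    have h3' : (a' : ℝ) ≤ a := by exact_mod_cast h3
    have h4' : (b' : ℝ) ≤ b := by exact_mod_cast h4
    apply ne_of_gt
    by_cases hab : a = a'
    · have hb : b' < b := lt_of_le_of_ne h4 (fun e => h6 ⟨hab, e.symm⟩)
      have hb' : (b' : ℝ) < b := by exact_mod_cast hb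
      have := mul_pos h0 (sub_pos.2 hb')
      have := mul_nonneg h2.le (sub_nonneg.2 h3')
      linarith
    · have ha : a' < a := lt_of_le_of_ne h3 (fun e => hab e.symm)
      have ha' : (a' : ℝ) < a := by exact_mod_cast ha
      have := mul_pos h2 (sub_pos.2 ha')
      have := mul_nonneg h0.le (sub_nonneg.2 h4')
      linarith
  · have h6 := hne h5
    have h3' : (a : ℝ) ≤ a' := by exact_mod_cast h3
    have h4' : (b : ℝ) ≤ b' := by exact_mod_cast h4
    apply ne_of_lt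
    by_cases hab : a = a'
    · have hb : b < b' := lt_of_le_of_ne h4 (fun e => h6 ⟨hab, e⟩)
      have hb' : (b : ℝ) < b' := by exact_mod_cast hb
      have := mul_pos h0 (sub_pos.2 hb')
      have := mul_nonneg h2.le (sub_nonneg.2 h3')
      linarith
    · have ha : a < a' := lt_of_le_of_ne h3 hab
      have ha' : (a : ℝ) < a' := by exact_mod_cast ha
      have := mul_pos h2 (sub_pos.2 ha')
      have := mul_nonneg h0.le (sub_nonneg.2 h4')
      linarith

theorem isNon_spec {px py qx qy rx ry sx sy : ℕ} (h : isNon px py qx qy rx ry sx sy = true)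
    {t s : ℝ} (ht0 : 0 < t) (ht1 : t < 1) (hs0 : 0 < s) (hs1 : s < 1)
    (hx : (px : ℝ) + t * (qx - px) = rx + s * (sx - rx))
    (hy : (py : ℝ) + t * (qy - py) = ry + s * (sy - ry)) : False := by
  unfold isNon at h
  rw [Bool.or_eq_true] at h
  rcases h with h | h
  · have h1 := side_spec h hs0 hs1
    rw [← orR_eq, ← orR_eq, ← orR_mix, ← hx, ← hy, orR_line] at h1
    exact h1 rfl
  · have h1 := side_spec h ht0 ht1
    rw [← orR_eq, ← orR_eq, ← orR_mix, hx, hy, orR_line] at h1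
    exact h1 rfl

theorem isSep_spec {px py qx qy rx ry sx sy : ℕ} (h : isSep px py qx qy rx ry sx sy = true)
    {t s t' s' : ℝ}
    (hx : (px : ℝ) + t * (qx - px) = rx + s * (sx - rx))
    (hy : (py : ℝ) + t * (qy - py) = ry + s * (sy - ry))
    (hx' : (px : ℝ) + t' * (qx - px) = rx + s' * (sx - rx))
    (hy' : (py : ℝ) + t' * (qy - py) = ry + s' * (sy - ry)) : s = s' := by
  have e1 : (1 - s) * orR px py qx qy rx ry + s * orR px py qx qy sx sy = 0 := by
    rw [← orR_mix, ← hx, ← hy, orR_line]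
  have e2 : (1 - s') * orR px py qx qy rx ry + s' * orR px py qx qy sx sy = 0 := by
    rw [← orR_mix, ← hx', ← hy', orR_line]
  have hne : orR px py qx qy rx ry ≠ orR px py qx qy sx sy := by
    rw [orR_eq, orR_eq]
    unfold isSep at h
    simp only [Bool.or_eq_true, Bool.and_eq_true, Nat.blt_eq] at h
    rcases h with ⟨h1, h2⟩ | ⟨h1, h2⟩
    · have h1' : (oR px py qx qy rx ry : ℝ) < oL px py qx qy rx ry := by exact_mod_cast h1
      have h2' : (oL px py qx qy sx sy : ℝ) < oR px py qx qy sx sy := by exact_mod_cast h2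
      intro e; linarith
    · have h1' : (oL px py qx qy rx ry : ℝ) < oR px py qx qy rx ry := by exact_mod_cast h1
      have h2' : (oR px py qx qy sx sy : ℝ) < oL px py qx qy sx sy := by exact_mod_cast h2
      intro e; linarith
  have e3 : (s - s') * (orR px py qx qy rx ry - orR px py qx qy sx sy) = 0 := by
    linear_combination e2 - e1
  rcases mul_eq_zero.1 e3 with h | h
  · linarith
  · exact absurd (sub_eq_zero.1 h) hne

/-! ### the periodic drawing -/

/-- coordinates of the vertex `i` in the cell `(x, y)`. -/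
noncomputable def VX (i : ℕ) (x : ℤ) : ℝ := (vx i : ℝ) + 269 * x
noncomputable def VY (i : ℕ) (y : ℤ) : ℝ := (vy i : ℝ) + 269 * y

/-- coordinates of the point with parameter `t` of the edge `c` starting in the cell `(x, y)`. -/
noncomputable def SX (c : ℕ) (x : ℤ) (t : ℝ) : ℝ :=
  VX (ei c) x + t * (VX (ej c) (x + ea c - 1) - VX (ei c) x)
noncomputable def SY (c : ℕ) (y : ℤ) (t : ℝ) : ℝ :=
  VY (ei c) y + t * (VY (ej c) (y + eb c) - VY (ei c) y)

theorem SX_shift (c : ℕ) (x k : ℤ) (t : ℝ) : SX c (x + k) t = SX c x t + 269 * k := by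
  unfold SX VX; push_cast; ring

theorem SY_shift (c : ℕ) (y k : ℤ) (t : ℝ) : SY c (y + k) t = SY c y t + 269 * k := by
  unfold SY VY; push_cast; ring

theorem SX_zero (c : ℕ) (x : ℤ) : SX c x 0 = VX (ei c) x := by unfold SX; ring
theorem SY_zero (c : ℕ) (y : ℤ) : SY c y 0 = VY (ei c) y := by unfold SY; ring
theorem SX_one (c : ℕ) (x : ℤ) : SX c x 1 = VX (ej c) (x + ea c - 1) := by unfold SX; ring
theorem SY_one (c : ℕ) (y : ℤ) : SY c y 1 = VY (ej c) (y + eb c) := by unfold SY; ring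

theorem SX_co {c : ℕ} (hc : c < 63) (s : ℕ) (t : ℝ) :
    SX c (1 + s) t = ((co c 0 + 269 * s : ℕ) : ℝ) +
      t * (((co c 2 + 269 * s : ℕ) : ℝ) - ((co c 0 + 269 * s : ℕ) : ℝ)) := by
  obtain ⟨h0, -, h2, -, -⟩ := co_eq c hc
  rw [h0, h2]
  unfold SX VX; push_cast; ring

theorem SY_co {c : ℕ} (hc : c < 63) (s : ℕ) (t : ℝ) :
    SY c (1 + s) t = ((co c 1 + 269 * s : ℕ) : ℝ) +
      t * (((co c 3 + 269 * s : ℕ) : ℝ) - ((co c 1 + 269 * s : ℕ) : ℝ)) := by
  obtain ⟨-, h1, -, h3, -⟩ := co_eq c hc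
  rw [h1, h3]
  unfold SY VY; push_cast; ring

theorem SX_bound {c : ℕ} (hc : c < 63) (x : ℤ) {t : ℝ} (h0 : 0 ≤ t) (h1 : t ≤ 1) :
    269 * ((x : ℝ) - 1) ≤ SX c x t ∧ SX c x t < 269 * ((x : ℝ) + 2) := by
  obtain ⟨-, -, -, -, hi, hj, ha, -⟩ := co_eq c hc
  have a1 : (vx (ei c) : ℝ) < 269 := by exact_mod_cast (v_lt _ hi).1
  have a2 : (vx (ej c) : ℝ) < 269 := by exact_mod_cast (v_lt _ hj).1
  have a3 : (ea c : ℝ) ≤ 2 := by exact_mod_cast ha
  have b1 : (0 : ℝ) ≤ vx (ei c) := Nat.cast_nonneg _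
  have b2 : (0 : ℝ) ≤ vx (ej c) := Nat.cast_nonneg _
  have b3 : (0 : ℝ) ≤ ea c := Nat.cast_nonneg _
  have e : SX c x t = (1 - t) * (vx (ei c)) + t * (vx (ej c) + 269 * (ea c - 1)) + 269 * x := by
    unfold SX VX; push_cast; ring
  rw [e]
  have h2 : 0 ≤ 1 - t := by linarith
  constructor
  · have := mul_nonneg h2 b1
    have := mul_nonneg h0 b2
    have := mul_nonneg h0 b3
    nlinarith
  · have u1 : (1 - t) * (vx (ei c) : ℝ) ≤ (1 - t) * 269 := mul_le_mul_of_nonneg_left a1.le h2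
    have u2 : t * ((vx (ej c) : ℝ) + 269 * (ea c - 1)) ≤ t * (269 + 269) := by
      apply mul_le_mul_of_nonneg_left _ h0
      linarith
    rcases lt_or_ge t 1 with h | h
    · have : (1 - t) * (vx (ei c) : ℝ) < (1 - t) * 269 :=
        mul_lt_mul_of_pos_left a1 (by linarith)
      nlinarith
    · have : t = 1 := le_antisymm h1 h
      subst this
      linarith

theorem SY_bound {c : ℕ} (hc : c < 63) (y : ℤ) {t : ℝ} (h0 : 0 ≤ t) (h1 : t ≤ 1) :
    269 * (y : ℝ) ≤ SY c y t ∧ SY c y t < 269 * ((y : ℝ) + 2) := by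
  obtain ⟨-, -, -, -, hi, hj, -, ha⟩ := co_eq c hc
  have a1 : (vy (ei c) : ℝ) < 269 := by exact_mod_cast (v_lt _ hi).2
  have a2 : (vy (ej c) : ℝ) < 269 := by exact_mod_cast (v_lt _ hj).2
  have a3 : (eb c : ℝ) ≤ 1 := by exact_mod_cast ha
  have b1 : (0 : ℝ) ≤ vy (ei c) := Nat.cast_nonneg _
  have b2 : (0 : ℝ) ≤ vy (ej c) := Nat.cast_nonneg _
  have b3 : (0 : ℝ) ≤ eb c := Nat.cast_nonneg _
  have e : SY c y t = (1 - t) * (vy (ei c)) + t * (vy (ej c) + 269 * eb c) + 269 * y := by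
    unfold SY VY; push_cast; ring
  rw [e]
  have h2 : 0 ≤ 1 - t := by linarith
  constructor
  · have := mul_nonneg h2 b1
    have := mul_nonneg h0 b2
    have := mul_nonneg h0 b3
    nlinarith
  · have u1 : (1 - t) * (vy (ei c) : ℝ) ≤ (1 - t) * 269 := mul_le_mul_of_nonneg_left a1.le h2
    have u2 : t * ((vy (ej c) : ℝ) + 269 * eb c) ≤ t * (269 + 269) := by
      apply mul_le_mul_of_nonneg_left _ h0
      linarith
    rcases lt_or_ge t 1 with h | h
    · have : (1 - t) * (vy (ei c) : ℝ) < (1 - t) * 269 :=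
        mul_lt_mul_of_pos_left a1 (by linarith)
      nlinarith
    · have : t = 1 := le_antisymm h1 h
      subst this
      linarith

/-- the two open segments meet. -/
def Meet (c : ℕ) (x y : ℤ) (d : ℕ) (x' y' : ℤ) : Prop :=
  ∃ t s : ℝ, 0 < t ∧ t < 1 ∧ 0 < s ∧ s < 1 ∧ SX c x t = SX d x' s ∧ SY c y t = SY d y' s

theorem Meet.near {c : ℕ} (hc : c < 63) {x y : ℤ} {d : ℕ} (hd : d < 63) {x' y' : ℤ}
    (h : Meet c x y d x' y') : x' - x ≤ 2 ∧ x - x' ≤ 2 ∧ y' - y ≤ 2 ∧ y - y' ≤ 2 := by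
  obtain ⟨t, s, ht0, ht1, hs0, hs1, hx, hy⟩ := h
  have b1 := SX_bound hc x ht0.le ht1.le
  have b2 := SX_bound hd x' hs0.le hs1.le
  have b3 := SY_bound hc y ht0.le ht1.le
  have b4 := SY_bound hd y' hs0.le hs1.le
  rw [hx] at b1
  rw [hy] at b3
  have c1 : (x' : ℝ) - x < 3 := by linarith
  have c2 : (x : ℝ) - x' < 3 := by linarith
  have c3 : (y' : ℝ) - y < 3 := by linarith
  have c4 : (y : ℝ) - y' < 3 := by linarith
  have d1 : x' - x < 3 := by exact_mod_cast c1
  have d2 : x - x' < 3 := by exact_mod_cast c2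
  have d3 : y' - y < 3 := by exact_mod_cast c3
  have d4 : y - y' < 3 := by exact_mod_cast c4
  omega

/-- the code of a neighbouring edge. -/
def code (x y : ℤ) (d : ℕ) (x' y' : ℤ) : ℕ := 25 * d + 5 * (x' - x + 2).toNat + (y' - y + 2).toNat

theorem code_parts {x y : ℤ} {d : ℕ} {x' y' : ℤ} (hx : x' - x ≤ 2 ∧ x - x' ≤ 2)
    (hy : y' - y ≤ 2 ∧ y - y' ≤ 2) :
    code x y d x' y' / 25 = d ∧ code x y d x' y' / 5 % 5 = (x' - x + 2).toNat ∧
      code x y d x' y' % 5 = (y' - y + 2).toNat := by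
  unfold code
  have h1 : (x' - x + 2).toNat ≤ 4 := by omega
  have h2 : (y' - y + 2).toNat ≤ 4 := by omega
  omega

theorem rel_coords {c : ℕ} (hc : c < 63) {x y : ℤ} {d : ℕ} (hd : d < 63) {x' y' : ℤ}
    (hx : x' - x ≤ 2 ∧ x - x' ≤ 2) (hy : y' - y ≤ 2 ∧ y - y' ≤ 2) {t s : ℝ}
    (h1 : SX c x t = SX d x' s) (h2 : SY c y t = SY d y' s) (T : ℕ) (hT : T = code x y d x' y') :
    ((co c 0 + 538 : ℕ) : ℝ) + t * (((co c 2 + 538 : ℕ) : ℝ) - ((co c 0 + 538 : ℕ) : ℝ)) =
      ((co (T / 25) 0 + 269 * (T / 5 % 5) : ℕ) : ℝ) + s * (((co (T / 25) 2 + 269 * (T / 5 % 5) : ℕ) : ℝ)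
        - ((co (T / 25) 0 + 269 * (T / 5 % 5) : ℕ) : ℝ)) ∧
    ((co c 1 + 538 : ℕ) : ℝ) + t * (((co c 3 + 538 : ℕ) : ℝ) - ((co c 1 + 538 : ℕ) : ℝ)) =
      ((co (T / 25) 1 + 269 * (T % 5) : ℕ) : ℝ) + s * (((co (T / 25) 3 + 269 * (T % 5) : ℕ) : ℝ)
        - ((co (T / 25) 1 + 269 * (T % 5) : ℕ) : ℝ)) := by
  obtain ⟨p1, p2, p3⟩ := code_parts (d := d) hx hy
  subst hT
  rw [p1, p2, p3]
  have e0 : (538 : ℕ) = 269 * 2 := rfl
  rw [e0, ← SX_co hc 2 t, ← SY_co hc 2 t, ← SX_co hd _ s, ← SY_co hd _ s]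
  have e1 : ((1 : ℤ) + ((2 : ℕ) : ℤ)) = x + (3 - x) := by push_cast; ring
  have e1' : ((1 : ℤ) + ((2 : ℕ) : ℤ)) = y + (3 - y) := by push_cast; ring
  have e2 : (1 : ℤ) + ((x' - x + 2).toNat : ℤ) = x' + (3 - x) := by
    have : (0 : ℤ) ≤ x' - x + 2 := by omega
    rw [Int.toNat_of_nonneg this]; ring
  have e3 : (1 : ℤ) + ((y' - y + 2).toNat : ℤ) = y' + (3 - y) := by
    have : (0 : ℤ) ≤ y' - y + 2 := by omega
    rw [Int.toNat_of_nonneg this]; ring
  constructor
  · rw [e1, e2, SX_shift, SX_shift, h1]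
  · rw [e1', e3, SY_shift, SY_shift, h2]

theorem Meet.not_non {c : ℕ} (hc : c < 63) {x y : ℤ} {d : ℕ} (hd : d < 63) {x' y' : ℤ}
    (h : Meet c x y d x' y') : non c (code x y d x' y') = false := by
  have hn := h.near hc hd
  obtain ⟨t, s, ht0, ht1, hs0, hs1, hx, hy⟩ := h
  obtain ⟨r1, r2⟩ := rel_coords hc hd ⟨hn.1, hn.2.1⟩ ⟨hn.2.2.1, hn.2.2.2⟩ hx hy _ rfl
  rcases h2 : non c (code x y d x' y') with _ | _
  · rfl
  · exact absurd (isNon_spec h2 ht0 ht1 hs0 hs1 r1 r2) (fun h => h)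

/-- the point of intersection is unique. -/
theorem meet_unique {c : ℕ} (hc : c < 63) {x y : ℤ} {d : ℕ} (hd : d < 63) {x' y' : ℤ}
    (hne : ¬ (d = c ∧ x' = x ∧ y' = y)) {t s t' s' : ℝ} (ht0 : 0 < t) (ht1 : t < 1) (hs0 : 0 < s)
    (hs1 : s < 1) (hx : SX c x t = SX d x' s) (hy : SY c y t = SY d y' s)
    (hx' : SX c x t' = SX d x' s') (hy' : SY c y t' = SY d y' s') : s = s' := by
  have hm : Meet c x y d x' y' := ⟨t, s, ht0, ht1, hs0, hs1, hx, hy⟩
  have hn := hm.near hc hd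
  have hnon := hm.not_non hc hd
  obtain ⟨p1, p2, p3⟩ := code_parts (d := d) ⟨hn.1, hn.2.1⟩ ⟨hn.2.2.1, hn.2.2.2⟩
  have hlt : code x y d x' y' < 1575 := by
    have : code x y d x' y' / 25 < 63 := by rw [p1]; exact hd
    omega
  have hl := (loop_spec c 1575 6 (loop_all c hc)).2 _ hlt hnon
  rcases hl with hl | hl
  · obtain ⟨r1, r2⟩ := rel_coords hc hd ⟨hn.1, hn.2.1⟩ ⟨hn.2.2.1, hn.2.2.2⟩ hx hy _ rfl
    obtain ⟨r3, r4⟩ := rel_coords hc hd ⟨hn.1, hn.2.1⟩ ⟨hn.2.2.1, hn.2.2.2⟩ hx' hy' _ rfl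
    exact isSep_spec hl r1 r2 r3 r4
  · exfalso
    apply hne
    rw [hl] at p1 p2 p3
    refine ⟨?_, ?_, ?_⟩ <;> omega

/-- at most five other edges meet a given one. -/
theorem card_meet {c : ℕ} (hc : c < 63) (x y : ℤ) :
    {p : ℕ × ℤ × ℤ | p.1 < 63 ∧ p ≠ (c, x, y) ∧ Meet c x y p.1 p.2.1 p.2.2}.encard ≤ 5 := by
  set A := {p : ℕ × ℤ × ℤ | p.1 < 63 ∧ p ≠ (c, x, y) ∧ Meet c x y p.1 p.2.1 p.2.2} with hA
  set F := ((range 1575).filter (fun t => non c t = false)).erase (25 * c + 12) with hF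
  have hself : 25 * c + 12 ∈ (range 1575).filter (fun t => non c t = false) := by
    rw [mem_filter, mem_range]
    refine ⟨by omega, ?_⟩
    have hm : Meet c x y c x y := ⟨1 / 2, 1 / 2, by norm_num, by norm_num, by norm_num,
      by norm_num, rfl, rfl⟩
    have := hm.not_non hc hc
    have e : code x y c x y = 25 * c + 12 := by
      unfold code
      have h1 : (x - x + 2).toNat = 2 := by simp
      have h2 : (y - y + 2).toNat = 2 := by simp
      rw [h1, h2]
    rwa [e] at this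
  have hcard : F.card ≤ 5 := by
    rw [hF, card_erase_of_mem hself]
    have := (loop_spec c 1575 6 (loop_all c hc)).1
    omega
  let g : ℕ × ℤ × ℤ → ℕ := fun p => code x y p.1 p.2.1 p.2.2
  have hmaps : Set.MapsTo g A (F : Set ℕ) := by
    rintro ⟨d, x', y'⟩ ⟨hd, hne, hm⟩
    replace hd : d < 63 := hd
    replace hm : Meet c x y d x' y' := hm
    have hn := hm.near hc hd
    obtain ⟨p1, p2, p3⟩ := code_parts (d := d) ⟨hn.1, hn.2.1⟩ ⟨hn.2.2.1, hn.2.2.2⟩
    have hlt : code x y d x' y' < 1575 := by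
      have : code x y d x' y' / 25 < 63 := by rw [p1]; exact hd
      omega
    rw [Finset.mem_coe, hF, mem_erase, mem_filter, mem_range]
    refine ⟨?_, hlt, hm.not_non hc hd⟩
    intro heq
    apply hne
    change code x y d x' y' = 25 * c + 12 at heq
    rw [heq] at p1 p2 p3
    have q1 : d = c := by omega
    have q2 : x' = x := by omega
    have q3 : y' = y := by omega
    rw [q1, q2, q3]
  have hinj : Set.InjOn g A := by
    rintro ⟨d, x', y'⟩ ⟨hd, -, hm⟩ ⟨d2, x2, y2⟩ ⟨hd2, -, hm2⟩ heq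
    replace hd : d < 63 := hd
    replace hm : Meet c x y d x' y' := hm
    replace hd2 : d2 < 63 := hd2
    replace hm2 : Meet c x y d2 x2 y2 := hm2
    have hn := hm.near hc hd
    have hn2 := hm2.near hc hd2
    obtain ⟨p1, p2, p3⟩ := code_parts (d := d) ⟨hn.1, hn.2.1⟩ ⟨hn.2.2.1, hn.2.2.2⟩
    obtain ⟨q1, q2, q3⟩ := code_parts (d := d2) ⟨hn2.1, hn2.2.1⟩ ⟨hn2.2.2.1, hn2.2.2.2⟩
    change code x y d x' y' = code x y d2 x2 y2 at heq
    rw [heq] at p1 p2 p3
    have r1 : d = d2 := by omega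
    have r2 : x' = x2 := by omega
    have r3 : y' = y2 := by omega
    rw [r1, r2, r3]
  calc A.encard ≤ (F : Set ℕ).encard := Set.encard_le_encard_of_injOn hmaps hinj
    _ = F.card := Set.encard_coe_eq_coe_finsetCard F
    _ ≤ 5 := by exact_mod_cast hcard

/-- no vertex lies on an open segment. -/
theorem off_seg {c : ℕ} (hc : c < 63) {v : ℕ} (hv : v < 10) (x y x' y' : ℤ) {t : ℝ} (h0 : 0 < t)
    (h1 : t < 1) : ¬ (SX c x t = VX v x' ∧ SY c y t = VY v y') := by
  rintro ⟨hx, hy⟩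
  have b1 := SX_bound hc x h0.le h1.le
  have b3 := SY_bound hc y h0.le h1.le
  have w1 : (vx v : ℝ) < 269 := by exact_mod_cast (v_lt v hv).1
  have w2 : (vy v : ℝ) < 269 := by exact_mod_cast (v_lt v hv).2
  have w3 : (0 : ℝ) ≤ vx v := Nat.cast_nonneg _
  have w4 : (0 : ℝ) ≤ vy v := Nat.cast_nonneg _
  rw [hx] at b1
  rw [hy] at b3
  unfold VX at b1
  unfold VY at b3
  have c1 : (x' : ℝ) - x < 2 := by linarith
  have c2 : (x : ℝ) - x' < 2 := by linarith
  have c3 : (y' : ℝ) - y < 2 := by linarith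
  have c4 : (y : ℝ) - y' < 2 := by linarith
  have d1 : x' - x < 2 := by exact_mod_cast c1
  have d2 : x - x' < 2 := by exact_mod_cast c2
  have d3 : y' - y < 2 := by exact_mod_cast c3
  have d4 : y - y' < 2 := by exact_mod_cast c4
  obtain ⟨sx, hsx⟩ : ∃ sx : ℕ, (sx : ℤ) = x' - x + 2 := ⟨(x' - x + 2).toNat, by omega⟩
  obtain ⟨sy, hsy⟩ : ∃ sy : ℕ, (sy : ℤ) = y' - y + 2 := ⟨(y' - y + 2).toNat, by omega⟩
  have hoff := off_all c hc v hv sx (by omega) sy (by omega)
  have X3 : SX c 3 t = ((co c 0 + 538 : ℕ) : ℝ) +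
      t * (((co c 2 + 538 : ℕ) : ℝ) - ((co c 0 + 538 : ℕ) : ℝ)) := by
    have := SX_co hc 2 t
    norm_num at this ⊢
    exact this
  have Y3 : SY c 3 t = ((co c 1 + 538 : ℕ) : ℝ) +
      t * (((co c 3 + 538 : ℕ) : ℝ) - ((co c 1 + 538 : ℕ) : ℝ)) := by
    have := SY_co hc 2 t
    norm_num at this ⊢
    exact this
  have ex : SX c 3 t = ((vx v + 269 * (1 + sx) : ℕ) : ℝ) := by
    have e1 : (3 : ℤ) = x + (3 - x) := by ring
    rw [e1, SX_shift, hx]
    unfold VX
    have : ((sx : ℤ) : ℝ) = (x' : ℝ) - x + 2 := by rw [hsx]; push_cast; ring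
    push_cast at this ⊢
    rw [this]; ring
  have ey : SY c 3 t = ((vy v + 269 * (1 + sy) : ℕ) : ℝ) := by
    have e1 : (3 : ℤ) = y + (3 - y) := by ring
    rw [e1, SY_shift, hy]
    unfold VY
    have : ((sy : ℤ) : ℝ) = (y' : ℝ) - y + 2 := by rw [hsy]; push_cast; ring
    push_cast at this ⊢
    rw [this]; ring
  unfold off at hoff
  simp only [Bool.or_eq_true, Bool.and_eq_true, Bool.not_eq_true', Nat.ble_eq] at hoff
  have hz := orR_line ((co c 0 + 538 : ℕ) : ℝ) ((co c 1 + 538 : ℕ) : ℝ) ((co c 2 + 538 : ℕ) : ℝ)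
    ((co c 3 + 538 : ℕ) : ℝ) t
  rw [← X3, ← Y3, ex, ey, orR_eq] at hz
  have hne := co_ne c hc
  rcases hoff with h | h
  · have heq : oL (co c 0 + 538) (co c 1 + 538) (co c 2 + 538) (co c 3 + 538)
      (vx v + 269 * (1 + sx)) (vy v + 269 * (1 + sy)) =
      oR (co c 0 + 538) (co c 1 + 538) (co c 2 + 538) (co c 3 + 538)
      (vx v + 269 * (1 + sx)) (vy v + 269 * (1 + sy)) := by
      have := sub_eq_zero.1 hz
      exact_mod_cast this
    rw [heq] at h
    simp at h
  · rw [X3] at ex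
    have hne' : ((co c 0 + 538 : ℕ) : ℝ) ≠ ((co c 2 + 538 : ℕ) : ℝ) := by
      intro e
      apply hne
      have : co c 0 + 538 = co c 2 + 538 := by exact_mod_cast e
      omega
    rcases h with ⟨h2, h3⟩ | ⟨h2, h3⟩
    · have h2' : ((vx v + 269 * (1 + sx) : ℕ) : ℝ) ≤ ((co c 0 + 538 : ℕ) : ℝ) := by
        exact_mod_cast h2
      have h3' : ((vx v + 269 * (1 + sx) : ℕ) : ℝ) ≤ ((co c 2 + 538 : ℕ) : ℝ) := by
        exact_mod_cast h3
      rw [← ex] at h2' h3'
      set p := ((co c 0 + 538 : ℕ) : ℝ)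
      set q := ((co c 2 + 538 : ℕ) : ℝ)
      have e1 : q - p ≤ 0 := by
        by_contra hh
        have := mul_pos h0 (not_le.1 hh)
        linarith
      have e2 : 0 ≤ (1 - t) * (q - p) := by linarith
      have e3 : 0 ≤ q - p := by
        by_contra hh
        have := mul_neg_of_pos_of_neg (sub_pos.2 h1) (not_le.1 hh)
        linarith
      exact hne' (by linarith)
    · have h2' : ((co c 0 + 538 : ℕ) : ℝ) ≤ ((vx v + 269 * (1 + sx) : ℕ) : ℝ) := by
        exact_mod_cast h2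
      have h3' : ((co c 2 + 538 : ℕ) : ℝ) ≤ ((vx v + 269 * (1 + sx) : ℕ) : ℝ) := by
        exact_mod_cast h3
      rw [← ex] at h2' h3'
      set p := ((co c 0 + 538 : ℕ) : ℝ)
      set q := ((co c 2 + 538 : ℕ) : ℝ)
      have e1 : 0 ≤ q - p := by
        by_contra hh
        have := mul_neg_of_pos_of_neg h0 (not_le.1 hh)
        linarith
      have e3 : q - p ≤ 0 := by
        by_contra hh
        have := mul_pos (sub_pos.2 h1) (not_le.1 hh)
        linarith
      exact hne' (by linarith)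

end Pool.Agent.Helper20.K5
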